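import Pool.Agent.Helper5_cox.Split

set_option autoImplicit false

namespace Pool.Agent.Results.MP_562155_al.FiniteLabels

open Pool.Agent.Helper5.Cox CoxeterSystem

/-- A weight function on a Coxeter system: additive on products whose lengths add. -/
def WeightFun {B W : Type} [Group W] {M : CoxeterMatrix B} (cs : CoxeterSystem M W)
    (φ : W → ℝ) : Prop :=
  ∀ g h : W, cs.length (g * h) = cs.length g + cs.length h → φ (g * h) = φ g + φ h

/-- The standard parabolic subgroup generated by `J`. -/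
def Parabolic {B W : Type} [Group W] {M : CoxeterMatrix B} (cs : CoxeterSystem M W)
    (J : Set B) : Subgroup W :=
  Subgroup.closure (cs.simple '' J)

/-- The union of the finite standard parabolic subgroups. -/
def Sph {B W : Type} [Group W] {M : CoxeterMatrix B} (cs : CoxeterSystem M W) : Set W :=
  {x | ∃ J : Set B, (Parabolic cs J : Set W).Finite ∧ x ∈ Parabolic cs J}

/-- `T` contains no infinite label (Mathlib writes an infinite label as `0`). -/
def NoInfLabel {B : Type} (M : CoxeterMatrix B) (T : Set B) : Prop :=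
  ∀ i ∈ T, ∀ j ∈ T, M i j ≠ 0

/-- Each even label of `T` between a generator of positive weight and one of nonpositive weight
is `2`. -/
def NoMixedEven {B W : Type} [Group W] {M : CoxeterMatrix B} (cs : CoxeterSystem M W)
    (φ : W → ℝ) (T : Set B) : Prop :=
  ∀ i ∈ T, ∀ j ∈ T, 0 < φ (cs.simple i) → φ (cs.simple j) ≤ 0 → Even (M i j) → M i j = 2

/-- `j` is dominated by `J`: `φ p + φ j ≤ 0` for each `p ∈ W_J` which is shortest in its coset
`p W_Q`, where `Q` is the set of generators in `J` commuting with `j`. -/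
def Dominated {B W : Type} [Group W] {M : CoxeterMatrix B} (cs : CoxeterSystem M W)
    (φ : W → ℝ) (J : Set B) (j : B) : Prop :=
  ∀ p ∈ Parabolic cs J,
    (∀ i ∈ J, M i j = 2 → cs.length p < cs.length (p * cs.simple i)) →
      φ p + φ (cs.simple j) ≤ 0

theorem result {B W : Type} [Finite B] [Group W] {M : CoxeterMatrix B}
    (cs : CoxeterSystem M W) (φ : W → ℝ) (hφ : WeightFun cs φ)
    (hb : BddAbove (Set.range φ))
    (h : ∀ T : Set B, NoInfLabel M T →
      (Parabolic cs T : Set W).Finite ∨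
      NoMixedEven cs φ T ∨
      (∃ J ⊆ T, (Parabolic cs J : Set W).Finite ∧ ∀ j ∈ T, j ∉ J → Dominated cs φ J j) ∨
      (∃ x ∈ Sph cs, ∀ g ∈ Parabolic cs T, φ g ≤ φ x)) :
    ∃ x ∈ Sph cs, φ x = ⨆ g, φ g := by
  classical
  have := Fintype.ofFinite B
  obtain ⟨C, hC⟩ := hb
  have hC' : ∀ g, φ g ≤ C := fun g => hC ⟨g, rfl⟩
  have hw : IsWeight cs φ := hφ
  have hsphfin : (Sph cs).Finite := by
    have h1 : Sph cs = ⋃ J : {J : Set B // (Parabolic cs J : Set W).Finite},
        (Parabolic cs J.1 : Set W) := by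
      ext x
      simp only [Sph, Set.mem_iUnion, Subtype.exists]
      constructor
      · rintro ⟨J, h1, h2⟩; exact ⟨J, h1, h2⟩
      · rintro ⟨J, h1, h2⟩; exact ⟨J, h1, h2⟩
    rw [h1]
    exact Set.finite_iUnion (fun J => J.2)
  have hsphne : (Sph cs).Nonempty := by
    refine ⟨1, ∅, ?_, one_mem _⟩
    unfold Parabolic
    rw [Set.image_empty, Subgroup.closure_empty]
    simp
  obtain ⟨x, hx, hmax⟩ := Set.exists_max_image (Sph cs) φ hsphfin hsphne
  refine ⟨x, hx, ?_⟩
  have hdomT : ∀ T J : Set B, J ⊆ T → (Parabolic cs J : Set W).Finite →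
      (∀ j ∈ T, j ∉ J → Dominated cs φ J j) → ∀ p ∈ Para cs T, φ p ≤ φ x := by
    intro T J hJT hJfin hdom p hp
    obtain ⟨g', q, hq, -, -, hle⟩ := suffix_bound hw J T hJT
      (fun j hj hjJ => hdom j hj hjJ) _ p rfl hp
    exact hle.trans (hmax q ⟨J, hJfin, hq⟩)
  have hT : ∀ T : Set B, (∀ i ∈ T, ∀ j ∈ T, M i j ≠ 0) → ∀ p ∈ Para cs T, φ p ≤ φ x := by
    intro T hTc p hp
    rcases h T hTc with h1 | h1 | ⟨J, hJT, hJfin, hdom⟩ | ⟨z, hz, h1⟩
    · exact hmax p ⟨T, h1, hp⟩
    · apply hdomT T {i | i ∈ T ∧ 0 < φ (cs.simple i)} (fun i hi => hi.1) _ _ p hp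
      · exact para_finite hw hC' (fun i hi => hi.2)
      · intro j hj hjJ
        have hj0 : φ (cs.simple j) ≤ 0 := by
          by_contra hcon
          push Not at hcon
          exact hjJ ⟨hj, hcon⟩
        refine dom_of_comm hw _ j (fun i hi => ?_) hj0
        rcases Nat.even_or_odd (M i j) with h2 | h2
        · exact h1 i hi.1 j hj hi.2 hj0 h2
        · have h3 := odd_eq hw h2
          have h4 := hi.2
          linarith
    · exact hdomT T J hJT hJfin hdom p hp
    · exact (h1 p hp).trans (hmax z hz)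
  have key : ∀ g, φ g ≤ φ x := by
    intro g
    apply reduction hw hC' _ Set.univ rfl (fun T _ hTc => hT T hTc) g
    unfold Para
    rw [Set.image_univ, cs.subgroup_closure_range_simple]
    exact Subgroup.mem_top g
  have : Nonempty W := ⟨1⟩
  exact le_antisymm (le_ciSup ⟨C, hC⟩ x) (ciSup_le key)

end Pool.Agent.Results.MP_562155_al.FiniteLabels
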