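import Pool.Agent.Helper5_cox.Split

set_option autoImplicit false

namespace Pool.Agent.Results.MP_562155_al.InfiniteLabels

open Pool.Agent.Helper5.Cox CoxeterSystem

/-- A weight function on a Coxeter system: additive on products whose lengths add. -/
def WeightFun {B W : Type} [Group W] {M : CoxeterMatrix B} (cs : CoxeterSystem M W)
    (φ : W → ℝ) : Prop :=
  ∀ g h : W, cs.length (g * h) = cs.length g + cs.length h → φ (g * h) = φ g + φ h

/-- For each bounded weight function there is a set `T` of generators without infinite label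
(Mathlib writes an infinite label as `0`) such that the bound of `φ` on the whole group is its
bound on the standard parabolic subgroup generated by `T`. -/
theorem result {B W : Type} [Finite B] [Group W] {M : CoxeterMatrix B}
    (cs : CoxeterSystem M W) (φ : W → ℝ) (hφ : WeightFun cs φ)
    (hb : BddAbove (Set.range φ)) :
    ∃ T : Set B, (∀ i ∈ T, ∀ j ∈ T, M i j ≠ 0) ∧
      ⨆ g, φ g = sSup (φ '' (Subgroup.closure (cs.simple '' T) : Set W)) := by
  classical
  have := Fintype.ofFinite B
  have hb' := hb
  obtain ⟨C, hC⟩ := hb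
  have hC' : ∀ g, φ g ≤ C := fun g => hC ⟨g, rfl⟩
  have hw : IsWeight cs φ := hφ
  set f : Set B → ℝ := fun T => sSup (φ '' (Para cs T : Set W)) with hf
  have hbT : ∀ T : Set B, BddAbove (φ '' (Para cs T : Set W)) := fun T =>
    ⟨C, by rintro _ ⟨p, _, rfl⟩; exact hC' p⟩
  have hneT : ∀ T : Set B, (φ '' (Para cs T : Set W)).Nonempty := fun T =>
    ⟨φ 1, 1, one_mem (Para cs T), rfl⟩
  obtain ⟨T, hT, hmax⟩ := Set.exists_max_image {T : Set B | ∀ i ∈ T, ∀ j ∈ T, M i j ≠ 0} f
    (Set.toFinite _) ⟨∅, by simp⟩
  refine ⟨T, hT, ?_⟩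
  have : Nonempty W := ⟨1⟩
  apply le_antisymm
  · apply ciSup_le
    intro g
    apply reduction hw hC' _ Set.univ rfl (fun T' _ hTc p hp => ?_) g
    · unfold Para
      rw [Set.image_univ, cs.subgroup_closure_range_simple]
      exact Subgroup.mem_top g
    · exact (le_csSup (hbT T') ⟨p, hp, rfl⟩).trans (hmax T' hTc)
  · apply csSup_le (hneT T)
    rintro _ ⟨p, _, rfl⟩
    exact le_ciSup hb' p

end Pool.Agent.Results.MP_562155_al.InfiniteLabels
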