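import Mathlib

/-!
# Bounded weight functions on right-angled Coxeter groups

Let `(W, S)` be a Coxeter system with even or infinite labels and `φ` a weight function whose
positive generators have only the labels `2` and `∞`. If `φ` is bounded, then so is it on the
powers of `s₁ ⋯ s_k t`, where `s₁, …, s_k` are the positive generators not commuting with `t`;
these powers are reduced, because every word for them contains each `s_r` and `t` at least `n`
times, as the homomorphisms onto the infinite dihedral groups `⟨s_r, t⟩` show. This gives the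
criterion. Conversely, reading a reduced word letter by letter, the weight is at most the sum of
the weights of the positive generators which can still be moved to the front.
-/

set_option autoImplicit false

namespace Pool.Agent.Results.MP_562155_al.RightAngled

variable {B W : Type*} [Group W] {M : CoxeterMatrix B}

/-- `φ` is a weight function on the Coxeter system: it is additive on products whose length is
the sum of the lengths. -/
def IsWeight (cs : CoxeterSystem M W) (φ : W → ℝ) : Prop :=
  ∀ g h : W, cs.length (g * h) = cs.length g + cs.length h → φ (g * h) = φ g + φ h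

/-- The standard parabolic subgroup `W_J`. -/
def parabolic (cs : CoxeterSystem M W) (J : Set B) : Subgroup W :=
  Subgroup.closure (cs.simple '' J)

/-- The union of all finite standard parabolic subgroups. -/
def Sph (cs : CoxeterSystem M W) : Set W :=
  {x | ∃ J : Set B, Finite (parabolic cs J) ∧ x ∈ parabolic cs J}

section basic

variable (cs : CoxeterSystem M W) {φ : W → ℝ}

theorem weight_one (hφ : IsWeight cs φ) : φ 1 = 0 := by
  have h := hφ 1 1 (by simp)
  rw [mul_one] at h
  linarith

theorem isReduced_tail {a : B} {ω : List B} (h : cs.IsReduced (a :: ω)) : cs.IsReduced ω := by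
  simpa using h.drop 1

theorem weight_word (hφ : IsWeight cs φ) (ω : List B) (h : cs.IsReduced ω) :
    φ (cs.wordProd ω) = (ω.map (fun s => φ (cs.simple s))).sum := by
  induction ω with
  | nil => simpa using weight_one cs hφ
  | cons a ω ih =>
    have h1 := isReduced_tail cs h
    have e1 : cs.length (cs.wordProd (a :: ω)) = (a :: ω).length := h
    rw [cs.wordProd_cons, hφ, ih h1, List.map_cons, List.sum_cons]
    rw [← cs.wordProd_cons, e1, cs.length_simple, h1.eq, List.length_cons]
    omega

theorem commute_word (a : B) (ω : List B) (h : ∀ b ∈ ω, M a b = 2) :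
    cs.simple a * cs.wordProd ω = cs.wordProd ω * cs.simple a := by
  induction ω with
  | nil => simp
  | cons b ω ih =>
    have h2 : (cs.simple a * cs.simple b) ^ 2 = 1 := by
      have := cs.simple_mul_simple_pow a b
      rwa [h b (by simp)] at this
    have h3 : cs.simple a * cs.simple b = cs.simple b * cs.simple a := by
      have h4 : (cs.simple a * cs.simple b) * (cs.simple a * cs.simple b) = 1 := by
        rw [← pow_two]; exact h2
      have h5 : cs.simple a * cs.simple b = (cs.simple a * cs.simple b)⁻¹ :=
        eq_inv_of_mul_eq_one_left h4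
      rw [h5, mul_inv_rev, cs.inv_simple, cs.inv_simple]
    rw [cs.wordProd_cons, ← mul_assoc, h3, mul_assoc, ih (fun c hc => h c (by simp [hc])),
      mul_assoc]

theorem not_reduced_of_commute (a : B) (ω₁ ω₂ : List B) (h : ∀ b ∈ ω₁, M a b = 2) :
    ¬ cs.IsReduced (a :: (ω₁ ++ a :: ω₂)) := by
  intro hr
  have e : cs.wordProd (a :: (ω₁ ++ a :: ω₂)) = cs.wordProd (ω₁ ++ ω₂) := by
    rw [cs.wordProd_cons, cs.wordProd_append, cs.wordProd_cons, ← mul_assoc,
      commute_word cs a ω₁ h, mul_assoc, ← mul_assoc (cs.simple a), cs.simple_mul_simple_self,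
      one_mul, cs.wordProd_append]
  have h1 := hr.eq
  rw [e] at h1
  have h4 := cs.length_wordProd_le (ω₁ ++ ω₂)
  simp only [List.length_cons, List.length_append] at h1 h4
  omega

open Classical in
theorem potential [Fintype B] (hφ : IsWeight cs φ)
    (hC : ∀ t : B, (∃ s, 0 < φ (cs.simple s) ∧ s ≠ t ∧ M s t ≠ 2) →
      φ (cs.simple t) +
        ∑ s with (0 < φ (cs.simple s) ∧ s ≠ t ∧ M s t ≠ 2), φ (cs.simple s) ≤ 0)
    (ω : List B) (h : cs.IsReduced ω) :
    ∃ A : Finset B, (∀ s ∈ A, 0 < φ (cs.simple s) ∧
      ∃ ω₁ ω₂, ω = ω₁ ++ s :: ω₂ ∧ ∀ b ∈ ω₁, M s b = 2) ∧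
      φ (cs.wordProd ω) ≤ ∑ s ∈ A, φ (cs.simple s) := by
  induction ω with
  | nil => exact ⟨∅, by simp, by simpa using (weight_one cs hφ).le⟩
  | cons a ω ih =>
    have h1 := isReduced_tail cs h
    obtain ⟨A, hA, hle⟩ := ih h1
    have hval : φ (cs.wordProd (a :: ω)) = φ (cs.simple a) + φ (cs.wordProd ω) := by
      rw [weight_word cs hφ _ h, weight_word cs hφ _ h1, List.map_cons, List.sum_cons]
    by_cases ha : 0 < φ (cs.simple a)
    · have haA : a ∉ A := by
        intro haA
        obtain ⟨_, ω₁, ω₂, he, hb⟩ := hA a haA
        rw [he] at h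
        exact not_reduced_of_commute cs a ω₁ ω₂ hb h
      refine ⟨insert a A, ?_, ?_⟩
      · intro s hs
        rcases Finset.mem_insert.1 hs with rfl | hs'
        · exact ⟨ha, [], ω, rfl, by simp⟩
        · obtain ⟨hs0, ω₁, ω₂, he, hb⟩ := hA s hs'
          refine ⟨hs0, a :: ω₁, ω₂, by rw [he]; rfl, ?_⟩
          intro b hb'
          rcases List.mem_cons.1 hb' with rfl | hb'
          · by_contra hne
            have hsb : s ≠ b := fun e => haA (e ▸ hs')
            have h3 := hC b ⟨s, hs0, hsb, hne⟩
            have h4 : 0 ≤ ∑ s with (0 < φ (cs.simple s) ∧ s ≠ b ∧ M s b ≠ 2),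
                φ (cs.simple s) :=
              Finset.sum_nonneg (fun i hi => (Finset.mem_filter.1 hi).2.1.le)
            linarith
          · exact hb b hb'
      · rw [hval, Finset.sum_insert haA]
        linarith
    · refine ⟨A.filter (fun s => ¬ (s ≠ a ∧ M s a ≠ 2)), ?_, ?_⟩
      · intro s hs
        obtain ⟨hsA, hs2⟩ := Finset.mem_filter.1 hs
        obtain ⟨hs0, ω₁, ω₂, he, hb⟩ := hA s hsA
        have hsa : s ≠ a := by
          rintro rfl
          exact ha hs0
        refine ⟨hs0, a :: ω₁, ω₂, by rw [he]; rfl, ?_⟩
        intro b hb'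
        rcases List.mem_cons.1 hb' with rfl | hb'
        · by_contra hne
          exact hs2 ⟨hsa, hne⟩
        · exact hb b hb'
      · have hsplit := Finset.sum_filter_add_sum_filter_not A
          (fun s => s ≠ a ∧ M s a ≠ 2) (fun s => φ (cs.simple s))
        have hsub : ∑ s ∈ A.filter (fun s => s ≠ a ∧ M s a ≠ 2), φ (cs.simple s) ≤
            ∑ s with (0 < φ (cs.simple s) ∧ s ≠ a ∧ M s a ≠ 2), φ (cs.simple s) := by
          apply Finset.sum_le_sum_of_subset_of_nonneg
          · intro s hs
            obtain ⟨hsA, hs2⟩ := Finset.mem_filter.1 hs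
            exact Finset.mem_filter.2 ⟨Finset.mem_univ _, (hA s hsA).1, hs2⟩
          · intro i hi _
            exact (Finset.mem_filter.1 hi).2.1.le
        have hkey : φ (cs.simple a) +
            ∑ s ∈ A.filter (fun s => s ≠ a ∧ M s a ≠ 2), φ (cs.simple s) ≤ 0 := by
          by_cases hex : ∃ s, 0 < φ (cs.simple s) ∧ s ≠ a ∧ M s a ≠ 2
          · have := hC a hex
            linarith
          · have he : A.filter (fun s => s ≠ a ∧ M s a ≠ 2) = ∅ := by
              apply Finset.filter_eq_empty_iff.2
              intro s hs h2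
              exact hex ⟨s, (hA s hs).1, h2⟩
            rw [he, Finset.sum_empty]
            have := not_lt.1 ha
            linarith
        rw [hval]
        linarith

/-- The sum of the multiplicities over a finite set is at most the length. -/
theorem sum_count_le [DecidableEq B] (S : Finset B) (ω : List B) :
    ∑ i ∈ S, ω.count i ≤ ω.length := by
  induction ω with
  | nil => simp
  | cons a ω ih =>
    have h1 : ∑ i ∈ S, (a :: ω).count i = ∑ i ∈ S, (ω.count i + if a = i then 1 else 0) := by
      apply Finset.sum_congr rfl
      intro i _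
      rw [List.count_cons]
      congr 1
      by_cases h : a = i <;> simp [h]
    rw [h1, Finset.sum_add_distrib, List.length_cons, Finset.sum_ite_eq]
    split_ifs <;> omega

end basic

section homs

variable (cs : CoxeterSystem M W)

open Classical in
/-- The generators of the sign character at `i`. -/
noncomputable def signFun (i : B) : B → ℤˣ := fun a => if a = i then -1 else 1

theorem signFun_liftable (i : B) (hi : ∀ j, i ≠ j → Even (M i j)) :
    M.IsLiftable (signFun i) := by
  intro a b
  by_cases hab : a = b
  · subst hab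
    have h1 : M a a = 1 := M.diagonal a
    rw [h1, pow_one]
    exact Int.units_mul_self _
  · unfold signFun
    by_cases h1 : a = i
    · subst h1
      have h2 : b ≠ a := fun h => hab h.symm
      obtain ⟨k, hk⟩ := hi b hab
      simp only [if_true, h2, if_false, mul_one, hk]
      rw [← two_mul, pow_mul]
      simp
    · by_cases h2 : b = i
      · subst h2
        obtain ⟨k, hk⟩ := hi a (Ne.symm h1)
        · rw [M.symmetric a b]
          simp only [if_true, h1, if_false, one_mul, hk]
          rw [← two_mul, pow_mul]
          simp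
      · simp [h1, h2]

open Classical in
theorem sign_word (i : B) (hi : ∀ j, i ≠ j → Even (M i j)) (ω : List B) :
    cs.lift ⟨signFun i, signFun_liftable i hi⟩ (cs.wordProd ω) = (-1) ^ (ω.count i) := by
  induction ω with
  | nil => simp
  | cons a ω ih =>
    rw [cs.wordProd_cons, map_mul, ih, cs.lift_apply_simple, List.count_cons]
    unfold signFun
    by_cases h : a = i
    · simp [h, pow_succ]
    · simp [h]

/-- The reflection of the integers at `0`. -/
def refl0 : Equiv.Perm ℤ where
  toFun x := -x
  invFun x := -x
  left_inv x := by simp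
  right_inv x := by simp

/-- The reflection of the integers at `1/2`. -/
def refl1 : Equiv.Perm ℤ where
  toFun x := 1 - x
  invFun x := 1 - x
  left_inv x := by simp
  right_inv x := by simp

open Classical in
/-- The images of the generators under the homomorphism onto the infinite dihedral group
generated by `i` and `j`. -/
noncomputable def dihFun (i j : B) : B → Equiv.Perm ℤ :=
  fun a => if a = i then refl0 else if a = j then refl1 else 1

theorem refl0_mul_self : refl0 * refl0 = 1 := by
  ext x; simp [refl0]

theorem refl1_mul_self : refl1 * refl1 = 1 := by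
  ext x; simp [refl1]

theorem dihFun_mul_self (i j a : B) : dihFun i j a * dihFun i j a = 1 := by
  unfold dihFun
  split_ifs
  · exact refl0_mul_self
  · exact refl1_mul_self
  · simp

theorem dihFun_liftable (i j : B) (hij : M i j = 0) (hi : ∀ k, i ≠ k → Even (M i k))
    (hj : ∀ k, j ≠ k → Even (M j k)) :
    M.IsLiftable (dihFun i j) := by
  intro a b
  by_cases hab : a = b
  · subst hab
    have h1 : M a a = 1 := M.diagonal a
    rw [h1, pow_one]
    exact dihFun_mul_self i j a
  · by_cases ha : a = i ∨ a = j
    · by_cases hb : b = i ∨ b = j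
      · have h0 : M a b = 0 := by
          rcases ha with rfl | rfl <;> rcases hb with rfl | rfl
          · exact absurd rfl hab
          · exact hij
          · rw [M.symmetric]; exact hij
          · exact absurd rfl hab
        rw [h0, pow_zero]
      · have hb1 : dihFun i j b = 1 := by
          unfold dihFun
          rw [if_neg (fun h => hb (Or.inl h)), if_neg (fun h => hb (Or.inr h))]
        have hev : Even (M a b) := by
          rcases ha with rfl | rfl
          · exact hi b hab
          · exact hj b hab
        obtain ⟨k, hk⟩ := hev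
        rw [hb1, mul_one, hk, ← two_mul, pow_mul, pow_two, dihFun_mul_self, one_pow]
    · have ha1 : dihFun i j a = 1 := by
        unfold dihFun
        rw [if_neg (fun h => ha (Or.inl h)), if_neg (fun h => ha (Or.inr h))]
      by_cases hb : b = i ∨ b = j
      · have hev : Even (M a b) := by
          rw [M.symmetric]
          rcases hb with rfl | rfl
          · exact hi a (Ne.symm hab)
          · exact hj a (Ne.symm hab)
        obtain ⟨k, hk⟩ := hev
        rw [ha1, one_mul, hk, ← two_mul, pow_mul, pow_two, dihFun_mul_self, one_pow]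
      · have hb1 : dihFun i j b = 1 := by
          unfold dihFun
          rw [if_neg (fun h => hb (Or.inl h)), if_neg (fun h => hb (Or.inr h))]
        rw [ha1, hb1, one_mul, one_pow]

end homs

section counts

variable (cs : CoxeterSystem M W) (i j : B) (hij : M i j = 0) (hne : i ≠ j)
  (hi : ∀ k, i ≠ k → Even (M i k)) (hj : ∀ k, j ≠ k → Even (M j k))

/-- The homomorphism onto the infinite dihedral group. -/
noncomputable def dih : W →* Equiv.Perm ℤ :=
  cs.lift ⟨dihFun i j, dihFun_liftable i j hij hi hj⟩

theorem dih_simple (a : B) : dih cs i j hij hi hj (cs.simple a) = dihFun i j a :=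
  cs.lift_apply_simple _ a

open Classical in
include hne in
theorem dih_abs (ω : List B) (x : ℤ) :
    |dih cs i j hij hi hj (cs.wordProd ω) x| ≤ |x| + ω.count j := by
  induction ω with
  | nil => simp
  | cons a ω ih =>
    rw [cs.wordProd_cons, map_mul, Equiv.Perm.mul_apply, dih_simple, List.count_cons]
    set y := dih cs i j hij hi hj (cs.wordProd ω) x with hy
    unfold dihFun
    by_cases h : a = i
    · subst h
      have : (refl0 : Equiv.Perm ℤ) y = -y := rfl
      rw [if_pos rfl, this, abs_neg]
      simp [hne]
      exact ih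
    · by_cases h2 : a = j
      · subst h2
        have : (refl1 : Equiv.Perm ℤ) y = 1 - y := rfl
        rw [if_neg h, if_pos rfl, this]
        have h3 : |1 - y| ≤ 1 + |y| := by
          calc |1 - y| ≤ |1| + |y| := abs_sub _ _
            _ = 1 + |y| := by simp
        simp only [beq_self_eq_true, if_true]
        push_cast
        linarith
      · rw [if_neg h, if_neg h2]
        simp [h2]
        exact ih

open Classical in
include hne in
theorem dih_abs2 (ω : List B) (x : ℤ) :
    |2 * dih cs i j hij hi hj (cs.wordProd ω) x - 1| ≤ |2 * x - 1| + 2 * ω.count i := by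
  induction ω with
  | nil => simp
  | cons a ω ih =>
    rw [cs.wordProd_cons, map_mul, Equiv.Perm.mul_apply, dih_simple, List.count_cons]
    set y := dih cs i j hij hi hj (cs.wordProd ω) x with hy
    unfold dihFun
    by_cases h : a = i
    · subst h
      have : (refl0 : Equiv.Perm ℤ) y = -y := rfl
      rw [if_pos rfl, this]
      have h3 : |2 * -y - 1| ≤ |2 * y - 1| + 2 := by
        have e : 2 * -y - 1 = -((2 * y - 1) + 2) := by ring
        rw [e, abs_neg]
        calc |(2 * y - 1) + 2| ≤ |2 * y - 1| + |2| := abs_add_le _ _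
          _ = |2 * y - 1| + 2 := by norm_num
      simp only [beq_self_eq_true, if_true]
      push_cast
      linarith
    · by_cases h2 : a = j
      · subst h2
        have : (refl1 : Equiv.Perm ℤ) y = 1 - y := rfl
        rw [if_neg h, if_pos rfl, this]
        have e : 2 * (1 - y) - 1 = -(2 * y - 1) := by ring
        rw [e, abs_neg]
        simp [h]
        exact ih
      · rw [if_neg h, if_neg h2]
        simp [h]
        exact ih

theorem dih_other (l : List B) (h1 : i ∉ l) (h2 : j ∉ l) :
    dih cs i j hij hi hj (cs.wordProd l) = 1 := by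
  induction l with
  | nil => simp
  | cons a l ih =>
    rw [cs.wordProd_cons, map_mul, dih_simple,
      ih (fun h => h1 (List.mem_cons_of_mem _ h)) (fun h => h2 (List.mem_cons_of_mem _ h)), mul_one]
    unfold dihFun
    rw [if_neg (fun h => h1 (by rw [h]; simp)), if_neg (fun h => h2 (by rw [h]; simp))]

theorem dih_list (l : List B) (hl : l.Nodup) (h1 : i ∈ l) (h2 : j ∉ l) :
    dih cs i j hij hi hj (cs.wordProd l) = refl0 := by
  induction l with
  | nil => simp at h1
  | cons a l ih =>
    have hj' : j ∉ l := fun h => h2 (List.mem_cons_of_mem _ h)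
    rw [cs.wordProd_cons, map_mul, dih_simple]
    obtain ⟨hal, hl'⟩ := List.nodup_cons.1 hl
    by_cases h : a = i
    · subst h
      rw [dih_other cs a j hij hi hj l hal hj', mul_one]
      unfold dihFun
      rw [if_pos rfl]
    · have h1' : i ∈ l := by
        rcases List.mem_cons.1 h1 with h3 | h3
        · exact absurd h3.symm h
        · exact h3
      rw [ih hl' h1' hj']
      unfold dihFun
      rw [if_neg h, if_neg (fun h3 => h2 (by rw [h3]; simp)), one_mul]

include hne in
theorem dih_block (l : List B) (hl : l.Nodup) (h1 : i ∈ l) (h2 : j ∉ l) (x : ℤ) :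
    dih cs i j hij hi hj (cs.wordProd (l ++ [j])) x = x - 1 := by
  rw [cs.wordProd_append, map_mul, dih_list cs i j hij hi hj l hl h1 h2, cs.wordProd_singleton,
    dih_simple]
  unfold dihFun
  rw [if_neg hne.symm, if_pos rfl, Equiv.Perm.mul_apply]
  show -(1 - x) = x - 1
  ring

include hne in
theorem dih_power (l : List B) (hl : l.Nodup) (h1 : i ∈ l) (h2 : j ∉ l) (n : ℕ) (x : ℤ) :
    dih cs i j hij hi hj (cs.wordProd (List.replicate n (l ++ [j])).flatten) x = x - n := by
  induction n generalizing x with
  | zero => simp
  | succ n ih =>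
    rw [List.replicate_succ, List.flatten_cons, cs.wordProd_append, map_mul,
      Equiv.Perm.mul_apply, ih, dih_block cs i j hij hne hi hj l hl h1 h2]
    push_cast
    ring

end counts

open Classical in
/-- The words `(s₁ ⋯ s_k t)^n` are reduced when the label of every pair `s_r, t` is infinite. -/
theorem isReduced_power (cs : CoxeterSystem M W) (l : List B) (hl : l.Nodup) (hne : l ≠ [])
    (t : B) (ht : t ∉ l) (hlt : ∀ s ∈ l, M s t = 0) (hev : ∀ a b, a ≠ b → Even (M a b)) (n : ℕ) :
    cs.IsReduced (List.replicate n (l ++ [t])).flatten := by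
  obtain ⟨ω, hω, he⟩ := cs.exists_isReduced
    (cs.wordProd (List.replicate n (l ++ [t])).flatten)
  have hcs : ∀ s ∈ l, n ≤ ω.count s := by
    intro s hs
    have hst : s ≠ t := fun h => ht (h ▸ hs)
    have h1 := dih_abs2 cs s t (hlt s hs) hst (hev s) (hev t) ω 0
    rw [← he, dih_power cs s t (hlt s hs) hst (hev s) (hev t) l hl hs ht n 0] at h1
    have e1 : (2 * (0 - (n : ℤ)) - 1) = -(2 * n + 1) := by ring
    have e2 : |(2 * 0 - 1 : ℤ)| = 1 := by norm_num
    rw [e1, abs_neg, abs_of_nonneg (by positivity), e2] at h1
    omega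
  have hct : n ≤ ω.count t := by
    obtain ⟨s, hs⟩ := List.exists_mem_of_ne_nil l hne
    have hst : s ≠ t := fun h => ht (h ▸ hs)
    have h1 := dih_abs cs s t (hlt s hs) hst (hev s) (hev t) ω 0
    rw [← he, dih_power cs s t (hlt s hs) hst (hev s) (hev t) l hl hs ht n 0] at h1
    have e1 : (0 - (n : ℤ)) = -n := by ring
    rw [e1, abs_neg, abs_of_nonneg (by positivity), abs_zero] at h1
    omega
  have hsum := sum_count_le (insert t l.toFinset) ω
  have hcard : (insert t l.toFinset).card = l.length + 1 := by
    rw [Finset.card_insert_of_notMem (by simpa using ht), List.toFinset_card_of_nodup hl]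
  have hlow : (l.length + 1) * n ≤ ∑ i ∈ insert t l.toFinset, ω.count i := by
    rw [← hcard, ← smul_eq_mul, ← Finset.sum_const]
    apply Finset.sum_le_sum
    intro i hi
    rcases Finset.mem_insert.1 hi with rfl | hi
    · exact hct
    · exact hcs i (by simpa using hi)
  have hlen : (List.replicate n (l ++ [t])).flatten.length = (l.length + 1) * n := by
    simp [mul_comm]
  unfold CoxeterSystem.IsReduced
  apply le_antisymm (cs.length_wordProd_le _)
  rw [he, hω.eq, hlen]
  exact hlow.trans hsum

open Classical in
/-- The criterion: for every generator `t` which does not commute with some generator of positive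
weight, the weight of `t` plus the sum of all positive weights of the generators not commuting
with `t` is at most `0`. -/
def Criterion [Fintype B] (cs : CoxeterSystem M W) (φ : W → ℝ) : Prop :=
  ∀ t : B, (∃ s, 0 < φ (cs.simple s) ∧ s ≠ t ∧ M s t ≠ 2) →
    φ (cs.simple t) +
      ∑ s with (0 < φ (cs.simple s) ∧ s ≠ t ∧ M s t ≠ 2), φ (cs.simple s) ≤ 0

open Classical in
theorem le_of_criterion [Fintype B] (cs : CoxeterSystem M W) {φ : W → ℝ} (hφ : IsWeight cs φ)
    (hC : Criterion cs φ) (g : W) : φ g ≤ ∑ s, max (φ (cs.simple s)) 0 := by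
  obtain ⟨ω, hω, rfl⟩ := cs.exists_isReduced g
  obtain ⟨A, hA, hle⟩ := potential cs hφ hC ω hω
  refine hle.trans ?_
  calc ∑ s ∈ A, φ (cs.simple s) ≤ ∑ s ∈ A, max (φ (cs.simple s)) 0 :=
        Finset.sum_le_sum (fun s _ => le_max_left _ _)
    _ ≤ ∑ s, max (φ (cs.simple s)) 0 :=
        Finset.sum_le_sum_of_subset_of_nonneg (Finset.subset_univ _)
          (fun i _ _ => le_max_right _ _)

open Classical in
/-- A product of distinct generators without odd labels is reduced. -/
theorem isReduced_nodup (cs : CoxeterSystem M W) (l : List B) (hl : l.Nodup)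
    (hev : ∀ s ∈ l, ∀ j, s ≠ j → Even (M s j)) : cs.IsReduced l := by
  obtain ⟨ω, hω, he⟩ := cs.exists_isReduced (cs.wordProd l)
  have hsub : l.toFinset ⊆ ω.toFinset := by
    intro s hs
    have hs' : s ∈ l := by simpa using hs
    have h1 := sign_word cs s (hev s hs') ω
    rw [← he, sign_word cs s (hev s hs') l, List.count_eq_one_of_mem hl hs', pow_one] at h1
    by_contra hn
    have h0 : ω.count s = 0 := List.count_eq_zero.2 (by simpa using hn)
    rw [h0, pow_zero] at h1
    exact absurd h1 (by decide)
  have hcard : l.length ≤ ω.length := by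
    rw [← List.toFinset_card_of_nodup hl]
    exact (Finset.card_le_card hsub).trans (List.toFinset_card_le ω)
  unfold CoxeterSystem.IsReduced
  apply le_antisymm (cs.length_wordProd_le _)
  rw [he, hω.eq]
  exact hcard

/-- A parabolic subgroup generated by finitely many commuting generators is finite. -/
theorem finite_parabolic [Finite B] (cs : CoxeterSystem M W) (J : Set B)
    (hJ : ∀ s ∈ J, ∀ t ∈ J, s ≠ t → M s t = 2) : Finite (parabolic cs J) := by
  have hcomm : ∀ x ∈ cs.simple '' J, ∀ y ∈ cs.simple '' J, x * y = y * x := by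
    rintro _ ⟨s, hs, rfl⟩ _ ⟨t, ht, rfl⟩
    by_cases hst : s = t
    · rw [hst]
    · have := commute_word cs s [t] (by simpa using hJ s hs t ht hst)
      simpa using this
  have hfg : Group.FG (parabolic cs J) := by
    rw [Group.fg_iff_subgroup_fg]
    exact ⟨((Set.toFinite J).image cs.simple).toFinset, by simp [parabolic]⟩
  have htor : Monoid.IsTorsion (parabolic cs J) := by
    rintro ⟨x, hx⟩
    have key : x * x = 1 := by
      have hx' := hx
      refine Subgroup.closure_induction (p := fun y hy => y * y = 1) ?_ (by simp) ?_ ?_ hx'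
      · rintro _ ⟨s, _, rfl⟩
        exact cs.simple_mul_simple_self s
      · intro a b ha hb h1 h2
        have hab : a * b = b * a := by
          have := (Subgroup.closureCommGroupOfComm hcomm).mul_comm
            (⟨a, ha⟩ : Subgroup.closure (cs.simple '' J)) ⟨b, hb⟩
          exact congrArg Subtype.val this
        calc a * b * (a * b) = a * (b * a) * b := by group
          _ = a * (a * b) * b := by rw [hab]
          _ = (a * a) * (b * b) := by group
          _ = 1 := by rw [h1, h2, mul_one]
      · intro a ha h1
        rw [← mul_inv_rev, h1, inv_one]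
    rw [isOfFinOrder_iff_pow_eq_one]
    refine ⟨2, by norm_num, ?_⟩
    apply Subtype.ext
    rw [pow_two]
    exact key
  exact @CommGroup.finite_of_fg_torsion (parabolic cs J)
    (Subgroup.closureCommGroupOfComm hcomm) hfg htor

open Classical in
theorem attained [Fintype B] (cs : CoxeterSystem M W) {φ : W → ℝ} (hφ : IsWeight cs φ)
    (hC : Criterion cs φ)
    (hev : ∀ s, 0 < φ (cs.simple s) → ∀ j, s ≠ j → Even (M s j)) :
    ∃ x ∈ Sph cs, φ x = ∑ s, max (φ (cs.simple s)) 0 := by
  set T : Finset B := Finset.univ.filter (fun s => 0 < φ (cs.simple s)) with hT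
  have hmem : ∀ s, s ∈ T ↔ 0 < φ (cs.simple s) := by intro s; simp [hT]
  have hclique : ∀ s ∈ T, ∀ t ∈ T, s ≠ t → M s t = 2 := by
    intro s hs t ht hst
    by_contra hne
    have h3 := hC t ⟨s, (hmem s).1 hs, hst, hne⟩
    have h4 : 0 ≤ ∑ s with (0 < φ (cs.simple s) ∧ s ≠ t ∧ M s t ≠ 2), φ (cs.simple s) :=
      Finset.sum_nonneg (fun i hi => (Finset.mem_filter.1 hi).2.1.le)
    have h5 := (hmem t).1 ht
    linarith
  refine ⟨cs.wordProd T.toList, ⟨(T : Set B), ?_, ?_⟩, ?_⟩
  · exact finite_parabolic cs _ (fun s hs t ht hst => hclique s hs t ht hst)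
  · have : ∀ l : List B, (∀ s ∈ l, s ∈ T) → cs.wordProd l ∈ parabolic cs (T : Set B) := by
      intro l
      induction l with
      | nil => intro _; simpa using (parabolic cs (T : Set B)).one_mem
      | cons a l ih =>
        intro h
        rw [cs.wordProd_cons]
        exact (parabolic cs (T : Set B)).mul_mem
          (Subgroup.subset_closure ⟨a, h a (by simp), rfl⟩)
          (ih (fun s hs => h s (List.mem_cons_of_mem _ hs)))
    exact this _ (fun s hs => Finset.mem_toList.1 hs)
  · rw [weight_word cs hφ _ (isReduced_nodup cs _ (Finset.nodup_toList T)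
      (fun s hs => hev s ((hmem s).1 (Finset.mem_toList.1 hs)))), Finset.sum_map_toList]
    rw [hT, Finset.sum_filter]
    apply Finset.sum_congr rfl
    intro s _
    by_cases h : 0 < φ (cs.simple s)
    · rw [if_pos h, max_eq_left h.le]
    · rw [if_neg h, max_eq_right (not_lt.1 h)]

open Classical in
theorem criterion_of_bdd [Fintype B] (cs : CoxeterSystem M W) {φ : W → ℝ} (hφ : IsWeight cs φ)
    (hev : ∀ a b, a ≠ b → Even (M a b))
    (hra : ∀ s, 0 < φ (cs.simple s) → ∀ j, s ≠ j → M s j = 2 ∨ M s j = 0)
    (hb : BddAbove (Set.range φ)) : Criterion cs φ := by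
  intro t ht
  obtain ⟨C, hC⟩ := hb
  set N : Finset B := Finset.univ.filter
    (fun s => 0 < φ (cs.simple s) ∧ s ≠ t ∧ M s t ≠ 2) with hN
  have hNm : ∀ s, s ∈ N ↔ (0 < φ (cs.simple s) ∧ s ≠ t ∧ M s t ≠ 2) := by intro s; simp [hN]
  have hne : N.toList ≠ [] := by
    obtain ⟨s, hs⟩ := ht
    intro h
    have : s ∈ N.toList := Finset.mem_toList.2 ((hNm s).2 hs)
    rw [h] at this
    simp at this
  have htN : t ∉ N.toList := by
    intro h
    exact ((hNm t).1 (Finset.mem_toList.1 h)).2.1 rfl
  have hl0 : ∀ s ∈ N.toList, M s t = 0 := by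
    intro s hs
    have h := (hNm s).1 (Finset.mem_toList.1 hs)
    rcases hra s h.1 t h.2.1 with h2 | h2
    · exact absurd h2 h.2.2
    · exact h2
  have hval : ∀ n : ℕ, φ (cs.wordProd (List.replicate n (N.toList ++ [t])).flatten) =
      n * (φ (cs.simple t) + ∑ s ∈ N, φ (cs.simple s)) := by
    intro n
    rw [weight_word cs hφ _ (isReduced_power cs N.toList (Finset.nodup_toList N) hne t htN hl0
      hev n)]
    induction n with
    | zero => simp
    | succ n ih =>
      rw [List.replicate_succ, List.flatten_cons, List.map_append, List.sum_append, ih,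
        List.map_append, List.sum_append, Finset.sum_map_toList]
      simp only [List.map_cons, List.map_nil, List.sum_cons, List.sum_nil]
      push_cast
      ring
  by_contra hcon
  have hpos : 0 < φ (cs.simple t) + ∑ s ∈ N, φ (cs.simple s) := not_le.1 hcon
  obtain ⟨n, hn⟩ := exists_nat_gt (C / (φ (cs.simple t) + ∑ s ∈ N, φ (cs.simple s)))
  rw [div_lt_iff₀ hpos, ← hval n] at hn
  exact absurd (hC ⟨_, rfl⟩) (not_le.2 hn)

open Classical in
/-- **Weight functions whose positive generators have only the labels `2` and `∞`.**
Let all labels of the Coxeter system be even or infinite, and let the generators of positive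
weight have only the labels `2` and `∞` (both hypotheses hold for every weight function if the
system is right-angled). Then `φ` is bounded above exactly if it satisfies the criterion, and in
this case its supremum is the sum of the positive weights of the generators and is attained in a
finite standard parabolic subgroup. -/
theorem result {B W : Type*} [Fintype B] [Group W] {M : CoxeterMatrix B}
    (cs : CoxeterSystem M W) (φ : W → ℝ) (hφ : IsWeight cs φ)
    (hM : (∀ a b, a ≠ b → M a b = 2 ∨ M a b = 0) ∨
      ((∀ a b, a ≠ b → Even (M a b)) ∧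
        ∀ s, 0 < φ (cs.simple s) → ∀ j, s ≠ j → M s j = 2 ∨ M s j = 0)) :
    (BddAbove (Set.range φ) ↔ Criterion cs φ) ∧
    (BddAbove (Set.range φ) →
      ∃ x ∈ Sph cs, φ x = ⨆ g, φ g ∧ φ x = ∑ s, max (φ (cs.simple s)) 0) := by
  have hev : ∀ a b, a ≠ b → Even (M a b) := by
    rcases hM with hM | hM
    · intro a b hab
      rcases hM a b hab with h | h <;> rw [h] <;> decide
    · exact hM.1
  have hra : ∀ s, 0 < φ (cs.simple s) → ∀ j, s ≠ j → M s j = 2 ∨ M s j = 0 := by
    rcases hM with hM | hM
    · exact fun s _ j hj => hM s j hj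
    · exact hM.2
  refine ⟨⟨criterion_of_bdd cs hφ hev hra, ?_⟩, ?_⟩
  · intro hC
    refine ⟨∑ s, max (φ (cs.simple s)) 0, ?_⟩
    rintro _ ⟨g, rfl⟩
    exact le_of_criterion cs hφ hC g
  · intro hb
    have hC := criterion_of_bdd cs hφ hev hra hb
    obtain ⟨x, hx, he⟩ := attained cs hφ hC (fun s _ j hj => hev s j hj)
    refine ⟨x, hx, ?_, he⟩
    exact le_antisymm (le_ciSup hb x)
      (ciSup_le (fun g => he ▸ le_of_criterion cs hφ hC g))

end Pool.Agent.Results.MP_562155_al.RightAngled
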